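import Pool.Agent.Helper84_HGC.Interp

/-!
# Theories which interpret the random poset are not hereditarily G-compact
-/

set_option autoImplicit false

open FirstOrder FirstOrder.Language Pool.Agent.HGC

namespace Pool.Agent.Results.MP_fc602f_lc.RandomPoset

/-- Let `T` be a theory (in any language) with a model `M` which interprets, with parameters, a
generic poset `P`: a poset in which every consistent finite one-point extension is realised (the
countable one is the random poset). Then `T` is not hereditarily G-compact. -/
theorem result {L : FirstOrder.Language.{0, 0}} (T : L.Theory) (M : Type) [L.Structure M]
    (hM : M ⊨ T) (P : Type) [PartialOrder P] (hP : Generic P) (h : InterpretsPoset L M P) :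
    ¬ HerGCompact T :=
  not_hered T M hM P hP h

end Pool.Agent.Results.MP_fc602f_lc.RandomPoset
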